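import Mathlib

namespace Pool.Agent.Results.MP_1e6c42_an.Yes

open MeasureTheory Filter Topology Set

/-- iterated sequential closure `Seq^α(A)` -/
noncomputable def seqIter {X : Type} [TopologicalSpace X] (A : Set X) (α : Ordinal.{0}) : Set X :=
  Ordinal.limitRecOn α A (fun _ S => seqClosure S) fun l _ S => ⋃ (β : Ordinal) (h : β < l), S β h

/-- the Dirac measure at `x` as an element of `C(K)^*` with the weak-star topology -/
noncomputable def dirac {K : Type} [TopologicalSpace K] [CompactSpace K] (x : K) :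
    WeakDual ℝ C(K, ℝ) := ContinuousMap.evalCLM ℝ x

theorem result (K : Type) [TopologicalSpace K] [CompactSpace K] [T2Space K] [MeasurableSpace K]
    [BorelSpace K] (α : Ordinal.{0}) (μ : Measure K) [IsProbabilityMeasure μ] [μ.InnerRegular]
    (ν : SignedMeasure K) (hν : ν.totalVariation ≪ μ) (m n : WeakDual ℝ C(K, ℝ))
    (hm : ∀ f, m f = ∫ x, f x ∂μ)
    (hn : ∀ f, n f = ∫ x, f x ∂ν.toJordanDecomposition.posPart -
      ∫ x, f x ∂ν.toJordanDecomposition.negPart)
    (h : m ∈ seqIter (convexHull ℝ (range (dirac (K := K)))) α) :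
    n ∈ seqIter (Submodule.span ℝ (range (dirac (K := K))) : Set (WeakDual ℝ C(K, ℝ))) α := by
  have tend : ∀ {s : ℕ → WeakDual ℝ C(K, ℝ)} {a}, Tendsto s atTop (𝓝 a) ↔
      ∀ f, Tendsto (fun i => s i f) atTop (𝓝 (a f)) :=
    tendsto_iff_forall_eval_tendsto_topDualPairing
  let T : C(K, ℝ) → WeakDual ℝ C(K, ℝ) →ₗ[ℝ] WeakDual ℝ C(K, ℝ) := fun F =>
    { toFun := fun a => ContinuousLinearMap.comp a (ContinuousLinearMap.mul ℝ C(K, ℝ) F)
      map_add' := fun _ _ => rfl
      map_smul' := fun _ _ => rfl }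
  have hT : ∀ F a f, T F a f = a (F * f) := fun _ _ _ => rfl
  have T0 : ∀ F (s : Set K), ∀ a ∈ Submodule.span ℝ (dirac '' s),
      T F a ∈ Submodule.span ℝ (dirac '' s) := by
    intro F s a ha
    refine (Submodule.span_le (p := (Submodule.span ℝ (dirac '' s)).comap (T F))).2 ?_ ha
    rintro _ ⟨x, hx, rfl⟩
    exact (Submodule.span ℝ (dirac '' s)).smul_mem (F x) (Submodule.subset_span (mem_image_of_mem _ hx))
  have key : ∀ (α : Ordinal.{0}), ∀ a ∈ seqIter (convexHull ℝ (range (dirac (K := K)))) α,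
      (∀ f : C(K, ℝ), 0 ≤ f → 0 ≤ a f) ∧ ∀ F,
        T F a ∈ seqIter (Submodule.span ℝ (range (dirac (K := K))) : Set (WeakDual ℝ C(K, ℝ))) α := by
    intro α
    induction α using Ordinal.limitRecOn with
    | zero =>
      simp only [seqIter, Ordinal.limitRecOn_zero]
      refine fun a ha => ⟨fun f hf => ?_, fun F => ?_⟩
      · refine convexHull_min (t := {a : WeakDual ℝ C(K, ℝ) | 0 ≤ a f}) ?_ ?_ ha
        · rintro _ ⟨x, rfl⟩; exact hf x
        · intro a ha b hb s t hs ht _
          exact add_nonneg (mul_nonneg hs ha) (mul_nonneg ht hb)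
      · rw [← image_univ] at ha ⊢
        exact T0 F _ a (convexHull_min Submodule.subset_span (Submodule.convex _) ha)
    | add_one β ih =>
      simp only [seqIter, Ordinal.limitRecOn_add_one] at ih ⊢
      rintro a ⟨s, h1, h2⟩
      exact ⟨fun f hf => ge_of_tendsto' (tend.1 h2 f) fun i => (ih _ (h1 i)).1 f hf,
        fun F => ⟨fun i => T F (s i), fun i => (ih _ (h1 i)).2 F, tend.2 fun f => tend.1 h2 (F * f)⟩⟩
    | limit l hl ih =>
      simp only [seqIter, Ordinal.limitRecOn_limit _ _ _ _ hl, mem_iUnion] at ih ⊢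
      rintro a ⟨β, hβ, ha⟩
      exact ⟨(ih β hβ a ha).1, fun F => ⟨β, hβ, (ih β hβ a ha).2 F⟩⟩
  have bd : ∀ a : WeakDual ℝ C(K, ℝ), (∀ f : C(K, ℝ), 0 ≤ f → 0 ≤ a f) → ∀ F f : C(K, ℝ),
      |a (F * f)| ≤ ‖f‖ * a |F| := by
    intro a ha F f
    have e : ∀ x, |F x * f x| ≤ ‖f‖ * |F x| := fun x => by
      rw [abs_mul, mul_comm]; gcongr; exact f.norm_coe_le_norm x
    have e1 := ha (‖f‖ • |F| - F * f) fun x => by simpa using (abs_le.1 (e x)).2
    have e2 := ha (‖f‖ • |F| + F * f) fun x => by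
      have := (abs_le.1 (e x)).1
      simp; linarith
    rw [map_sub, map_smul, smul_eq_mul] at e1
    rw [map_add, map_smul, smul_eq_mul] at e2
    exact abs_le.2 ⟨by linarith, by linarith⟩
  obtain ⟨a1, a2⟩ := (ν.totalVariation_absolutelyContinuous_iff μ).1 hν
  set g : K → ℝ := fun x => (ν.toJordanDecomposition.posPart.rnDeriv μ x).toReal -
    (ν.toJordanDecomposition.negPart.rnDeriv μ x).toReal
  have ig : Integrable g μ :=
    Measure.integrable_toReal_rnDeriv.sub Measure.integrable_toReal_rnDeriv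
  have ic : ∀ f : C(K, ℝ), Integrable f μ := fun f =>
    (BoundedContinuousFunction.mkOfCompact f).integrable μ
  have im : ∀ {g : K → ℝ}, Integrable g μ → ∀ f : C(K, ℝ), Integrable (fun x => g x * f x) μ :=
    fun hg f => hg.mul_bdd (ic f).1 (ae_of_all _ f.norm_coe_le_norm)
  have eg : ∀ f, n f = ∫ x, g x * f x ∂μ := fun f => by
    rw [hn, ← integral_toReal_rnDeriv_mul a1, ← integral_toReal_rnDeriv_mul a2,
      ← integral_sub (im Measure.integrable_toReal_rnDeriv f) (im Measure.integrable_toReal_rnDeriv f)]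
    simp only [g, sub_mul]
  choose G hG _ using fun k : ℕ =>
    ig.exists_boundedContinuous_integral_sub_le (Nat.one_div_pos_of_nat (α := ℝ) (n := k))
  let F : ℕ → C(K, ℝ) := fun k => (G k).toContinuousMap
  have b1 : ∀ k f, |m (F k * f) - n f| ≤ ‖f‖ * (1 / (k + 1)) := fun k f => by
    rw [hm, eg, ← integral_sub (ic _) (im ig f), ← Real.norm_eq_abs]
    refine (norm_integral_le_of_norm_le ((ig.sub (ic (F k))).norm.const_mul ‖f‖)
      (ae_of_all _ fun x => ?_)).trans ?_
    · rw [ContinuousMap.mul_apply, ← sub_mul, norm_mul, mul_comm, norm_sub_rev]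
      exact mul_le_mul_of_nonneg_right (f.norm_coe_le_norm x) (norm_nonneg _)
    · rw [integral_const_mul]; exact mul_le_mul_of_nonneg_left (hG k) (norm_nonneg _)
  have b2 : ∀ k j, m |F k - F j| ≤ 1 / (k + 1) + 1 / (j + 1) := fun k j => by
    rw [hm]
    refine (integral_mono (ic _) ((ig.sub (ic (F k))).norm.add (ig.sub (ic (F j))).norm)
      fun x => ?_).trans ?_
    · simpa [abs_sub_comm (g x) (F k x)] using abs_sub_le (F k x) (g x) (F j x)
    · rw [integral_add' (ig.sub (ic (F k))).norm (ig.sub (ic (F j))).norm]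
      exact add_le_add (hG k) (hG j)
  have lim0 := tendsto_one_div_add_atTop_nhds_zero_nat (𝕜 := ℝ)
  induction α using Ordinal.limitRecOn with
  | zero =>
    simp only [seqIter, Ordinal.limitRecOn_zero] at h ⊢
    have h' := convexHull_min Submodule.subset_span (Submodule.span ℝ (range (dirac (K := K)))).convex h
    obtain ⟨t, ht, h1⟩ := Submodule.mem_span_finite_of_mem_span h'
    rw [← image_univ] at ht
    obtain ⟨s, -, hs', e⟩ := Finite.exists_subset_finite_image_eq t.finite_toSet ht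
    rw [← e] at h1
    have := FiniteDimensional.span_of_finite ℝ (hs'.image (dirac (K := K)))
    refine Submodule.span_mono (image_subset_range _ s)
      ((Submodule.span ℝ (dirac '' s)).closed_of_finiteDimensional.mem_of_tendsto
        (tend.2 fun f => ?_) (.of_forall fun k => T0 (F k) s m h1))
    refine tendsto_iff_norm_sub_tendsto_zero.2 (squeeze_zero (fun _ => norm_nonneg _)
      (fun k => b1 k f) ?_)
    simpa using lim0.const_mul ‖f‖
  | add_one β ih =>
    simp only [seqIter, Ordinal.limitRecOn_add_one] at h ⊢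
    obtain ⟨s, h1, h2⟩ := h
    classical
    let P : ℕ → ℕ → Prop := fun i k => ∀ j ≤ k, s i |F k - F j| ≤ m |F k - F j| + 1 / (k + 1)
    refine ⟨fun i => T (F (Nat.findGreatest (P i) i)) (s i), fun i => (key β _ (h1 i)).2 _,
      tend.2 fun f => Metric.tendsto_nhds.2 fun ε hε => ?_⟩
    obtain ⟨j, hj⟩ := ((lim0.const_mul (4 * ‖f‖)).eventually
      (gt_mem_nhds (show 4 * ‖f‖ * 0 < ε / 2 by simpa using hε))).exists
    have e1 : ∀ᶠ i in atTop, P i j := (eventually_all_finite (finite_Iic j)).2 fun l _ =>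
      (tend.1 h2 _).eventually (ge_mem_nhds (lt_add_of_pos_right _ Nat.one_div_pos_of_nat))
    filter_upwards [e1, eventually_ge_atTop j,
      Metric.tendsto_nhds.1 (tend.1 h2 (F j * f)) _ (half_pos hε)] with i e1 e2 e3
    have e4 := Nat.le_findGreatest e2 e1
    have e5 := Nat.findGreatest_spec e2 e1 j e4
    set k := Nat.findGreatest (P i) i
    have e6 := bd _ (key β _ (h1 i)).1 (F k - F j) f
    have e7 : (1 / (k + 1) : ℝ) ≤ 1 / (j + 1) := Nat.one_div_le_one_div e4
    have e8 : ‖f‖ * s i |F k - F j| ≤ ‖f‖ * (3 * (1 / (j + 1))) :=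
      mul_le_mul_of_nonneg_left (by linarith [b2 k j]) (norm_nonneg _)
    rw [sub_mul, map_sub] at e6
    rw [Real.dist_eq] at e3 ⊢
    rw [hT]
    linarith [abs_sub_le (s i (F k * f)) (s i (F j * f)) (n f),
      abs_sub_le (s i (F j * f)) (m (F j * f)) (n f), b1 j f]
  | limit l hl ih =>
    simp only [seqIter, Ordinal.limitRecOn_limit _ _ _ _ hl, mem_iUnion] at ih h ⊢
    obtain ⟨β, hβ, ha⟩ := h
    exact ⟨β, hβ, ih β hβ ha⟩

end Pool.Agent.Results.MP_1e6c42_an.Yes
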